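import Pool.Agent.U115.WM.Stm

/-!
# Project WN (helper115): the exact order of magnitude `B log B`

For the varieties of project WM (symmetric and alternating matrices of rank `k`, quadrics in subspaces of
dimension `k`) and the anticanonical height: `c B log B ≤ N(U, B) ≤ C B log B`.

Prove `theorem t_X : S_X` (in your own namespace). You may import the finished packages of project WM:
`Pool.Agent.U580.WM.RED` (`t_RED`), `Pool.Agent.U333.WM.COV` (`t_COV`), `Pool.Agent.U283.WM.CNTL` (`CNTL.t_CNTL`),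
`Pool.Agent.U694.WM.ABS` (`t_ABS`), `Pool.Agent.U461.WM.CMS` (`t_CMS`), `Pool.Agent.U375.WM.CMA` (`t_CMA`),
`Pool.Agent.U643.WM.CMQ` (`t_CMQ`), `Pool.Agent.U95.WM.ZB` (`t_ZB`), `Pool.Agent.U618.WM.EXB` (`t_EXB`),
`Pool.Agent.U255.WM.DEC` (`DEC.t_DEC`), `Pool.Agent.U784.WM.DCQ` (`DCQ.t_DCQ`), each proves `Pool.Agent.U115.WM.S_..`.
-/

set_option autoImplicit false

open scoped Classical
open Matrix

namespace Pool.Agent.U115.WN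

open Pool.Agent.U115.WM

/-- the largest difference `e q - e p` -/
def spr {k : ℕ} (e : Fin k → ℕ) : ℕ := Finset.univ.sup fun p : Fin k × Fin k => e p.2 - e p.1

/-! ### The upper bound -/

/-- **ABS2**, the sharp version of `S_ABS` (proof in `Pool/Agent/U694/WM/ABS.lean`: `t_ABS`; copy and change the
end). The only changes: the additional factor `2 ^ (-spr e / 2)` in the first inequality, and `(1 + log T)`
instead of `(1 + log T) ^ k` in the conclusion. Proof: now `#S_e ≤ C T ^ α 2 ^ (-spr e / 2)`, and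
`∑_e 2 ^ (-spr e / 2)` over the monotone `e` with `e i ≤ E` is at most `C (E + 1)`: there are at most
`(δ + 1) ^ k` monotone `e` with given `e 0` and `spr e = δ`, and `∑_δ (δ + 1) ^ k 2 ^ (-δ/2)` converges. (For
`k = 0` there is only one `e`.) -/
def S_ABS2 : Prop :=
  ∀ (n k : ℕ) (ι : Type) [Fintype ι] (w : (Fin k → ℕ) → ι → ℝ) (ND : (Fin k → ℕ) → ℝ → Prop)
    (κ τ ρ C₀ C₁ : ℝ) (P : Type) (Λ : P → Set (Fin n → ℤ)) (H : P → ℝ → Prop)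
    (cf : Matrix (Fin n) (Fin k) ℤ → P → ι → ℤ),
  0 < κ → 0 ≤ ρ → 1 ≤ C₀ → 1 ≤ C₁ → (∀ e α, 0 < w e α) →
  (∀ e M M', ND e M → M ≤ M' → ND e M') →
  (∀ p, ∃ B : Matrix (Fin n) (Fin k) ℤ, Red C₀ B ∧ lat B = Λ p) →
  (∀ p h B, 0 < h → H p h → Red C₀ B → lat B = Λ p →
    (∀ α, |(cf B p α : ℝ)| * w (typ B) α ≤ C₁ * h) ∧ ND (typ B) (C₁ * h)) →
  (∀ p p' B, Red C₀ B → lat B = Λ p → lat B = Λ p' → cf B p = cf B p' → p = p') →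
  (∃ C : ℝ, ∀ (e : Fin k → ℕ) (M : ℝ), Monotone e → 0 < M → ND e M →
    ∏ α, max 1 (M / w e α) ≤
      C * (M ^ κ * vol e ^ (-τ)) ^ ρ * gap e * (2 : ℝ) ^ (-(spr e : ℝ) / 2)) →
  (∃ c : ℝ, 0 < c ∧ ∀ (e : Fin k → ℕ) (M : ℝ), Monotone e → 0 < M → ND e M →
    c * vol e ^ τ ≤ M ^ κ) →
  ∀ a b α : ℝ, 0 < a → 0 < κ * b + τ * a → κ * ρ ≤ a * α → κ * n ≤ α * (κ * b + τ * a) →
    ∃ C : ℝ, ∀ T : ℝ, 1 ≤ T →
      {p : P | ∃ (B : Matrix (Fin n) (Fin k) ℤ) (h : ℝ), Inj B ∧ lat B = Λ p ∧ 0 < h ∧ H p h ∧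
        h ^ a * cov B ^ b ≤ T}.Finite ∧
      ({p : P | ∃ (B : Matrix (Fin n) (Fin k) ℤ) (h : ℝ), Inj B ∧ lat B = Λ p ∧ 0 < h ∧ H p h ∧
        h ^ a * cov B ^ b ≤ T}.ncard : ℝ) ≤ C * T ^ α * (1 + Real.log T)

/-- **CMS2** (`k ≥ 3`). Indices `0 .. k-1`, `rev p = k - 1 - p`, `x i j = M / 2 ^ (e i + e j)`; see
`Pool/Agent/U461/WM/CMS.lean` for `S_CMS`. `max 1 x = x * max 1 (1/x)`, and `max 1 (1 / x i j) = 1` unless
`rev j < i`; put `(p, q) = (rev j, i)`, so `p < q ≤ rev p`: then `max 1 (1 / x i j) * 2 ^ (-(e q - e p)) = g p q`,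
`g p q = max (2 ^ (-(e q - e p))) (2 ^ (e p + e (rev p)) / M) ≤ 1`. So
`∏ max 1 x = ∏ x * gap * ∏_{p < q ≤ rev p} g p q * ∏_{p < q, rev p < q} 2 ^ (-(e q - e p))`, and all these factors are `≤ 1`.
Keep only `g 0 1`, `g 0 (k-1)` and `2 ^ (-(e (k-1) - e 1))`. Let `A = e 1 - e 0`, `B = e (k-1) - e 1`.
`M ≥ 2 ^ (e 1 + e (k-2)) ≥ 2 ^ (2 e 1)`, so `g 0 q ≤ min 1 (2 ^ (B - A))` for `q ≥ 1`, and the product is at most
`min 1 (2 ^ (B - A)) ^ 2 * 2 ^ (-B) ≤ 2 ^ (-(A + B) / 2)`. `spr e = A + B`. -/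
def S_CMS2 : Prop := ∀ (k : ℕ) (e : Fin k → ℕ) (M : ℝ), 3 ≤ k → Monotone e → 0 < M →
  (∀ i, (2 : ℝ) ^ (e i + e i.rev) ≤ M) →
  ∏ α : {p : Fin k × Fin k // p.1 ≤ p.2}, max 1 (M / 2 ^ (e α.1.1 + e α.1.2)) ≤
    (M ^ (k : ℝ) * vol e ^ (-2 : ℝ)) ^ (((k : ℝ) + 1) / 2) * gap e * (2 : ℝ) ^ (-(spr e : ℝ) / 2)

/-- **CMA2** (`k ≥ 2`). As `S_CMA` (`Pool/Agent/U375/WM/CMA.lean`): `i < j`, `rev j < i`, `(p, q) = (rev j, i)`, so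
`p < q < rev p`; the pair `(p, q) = (0, k-1)` does not occur, so one gains its factor
`2 ^ (-(e (k-1) - e 0)) ≤ 2 ^ (-spr e / 2)`. -/
def S_CMA2 : Prop := ∀ (k : ℕ) (e : Fin k → ℕ) (M : ℝ), 2 ≤ k → Monotone e → 0 < M →
  (∀ i, (2 : ℝ) ^ (e i + e i.rev) ≤ M) →
  ∏ α : {p : Fin k × Fin k // p.1 < p.2}, max 1 (M / 2 ^ (e α.1.1 + e α.1.2)) ≤
    (M ^ (k : ℝ) * vol e ^ (-2 : ℝ)) ^ (((k : ℝ) - 1) / 2) * gap e * (2 : ℝ) ^ (-(spr e : ℝ) / 2)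

/-- **CMQ2** (`k ≥ 3`), from `S_CMS2`: take `E = e (k-1)` (the largest), `e' i = E - e (rev i)`,
`M' = M * 2 ^ (2 E)`. Then `M' / 2 ^ (e' i + e' j) = M * 2 ^ (e (rev i) + e (rev j))`, and `(i, j) ↦ (rev j, rev i)` permutes
the pairs `i ≤ j`; `vol e' = 2 ^ (k E) / vol e`, `gap e' = gap e`, `spr e' = spr e`. -/
def S_CMQ2 : Prop := S_CMS2 → ∀ (k : ℕ) (e : Fin k → ℕ) (M : ℝ), 3 ≤ k → Monotone e → 0 < M →
  (∀ i, 1 ≤ M * (2 : ℝ) ^ (e i + e i.rev)) →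
  ∏ α : {p : Fin k × Fin k // p.1 ≤ p.2}, max 1 (M * 2 ^ (e α.1.1 + e α.1.2)) ≤
    (M ^ (k : ℝ) * vol e ^ (2 : ℝ)) ^ (((k : ℝ) + 1) / 2) * gap e * (2 : ℝ) ^ (-(spr e : ℝ) / 2)

/-! ### The number of lattices -/

/-- **LUB**: at most `C X ^ n` lattices of rank `k` and covolume at most `X`. Proof: each has a reduced basis
(`t_RED`, `t_COV`); its type `e = typ B` satisfies `vol e ≤ C cov ≤ C X` (`low`), is monotone, and there are at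
most `C vol e ^ n / gap e` lattices of type `e` (`t_CNTL`). `gap e ≥ 2 ^ (spr e)` and there are at most
`(δ + 1) ^ k` monotone `e` with given `e 0` and `spr e = δ`; for given differences `e i - e 0` the sum of
`vol e ^ n` over the `e 0` with `vol e ≤ C X` is geometric, at most `2 (C X) ^ n`. -/
def S_LUB : Prop := ∀ n k : ℕ, 1 ≤ n → 1 ≤ k → ∃ C : ℝ, ∀ X : ℝ, 1 ≤ X →
  {Λ : Set (Fin n → ℤ) | ∃ B : Matrix (Fin n) (Fin k) ℤ, Inj B ∧ lat B = Λ ∧ cov B ≤ X}.Finite ∧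
  ({Λ : Set (Fin n → ℤ) | ∃ B : Matrix (Fin n) (Fin k) ℤ, Inj B ∧ lat B = Λ ∧
    cov B ≤ X}.ncard : ℝ) ≤ C * X ^ n

/-- **LPT**: the points of a lattice in a cube. Proof: let `B` be reduced. By `quo` with an integral vector
`x`: `|x i| |b_i| ≤ √(C₀ n) λ` if `B x` has entries at most `λ`. As the columns of `V` are independent, one of
them has `x_(k-1) ≠ 0`, so `N B (k-1) ≤ C λ²` and by monotonicity `N B i ≤ C λ²` for all `i`. The number of the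
points is at most `∏ (1 + 2 √(C₀ n) λ / |b_i|) ≤ ∏ C λ / |b_i| ≤ C λ ^ k / cov` (`upp`: `cov² ≤ C₀ ∏ N B i`). -/
def S_LPT : Prop := ∀ (n k : ℕ) (C₀ : ℝ), 1 ≤ C₀ → ∃ C : ℝ, 1 ≤ C ∧
  ∀ (B : Matrix (Fin n) (Fin k) ℤ) (lam : ℝ), Red C₀ B → 1 ≤ lam →
    (∃ V : Matrix (Fin n) (Fin k) ℤ, Inj V ∧ (∀ l i, |(V l i : ℝ)| ≤ lam) ∧
      ∀ i, (fun l => V l i) ∈ lat B) →
    (∀ i, (N B i : ℝ) ≤ C * lam ^ 2) ∧
    {v : Fin n → ℤ | v ∈ lat B ∧ ∀ l, |(v l : ℝ)| ≤ lam}.Finite ∧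
    ({v : Fin n → ℤ | v ∈ lat B ∧ ∀ l, |(v l : ℝ)| ≤ lam}.ncard : ℝ) * cov B ≤ C * lam ^ k

/-- **LFM**: many matrices with independent columns. Proof: let the rows be `l < n`; for `lam ≥ 4 k + 4` take
`V i i ∈ [lam/2, lam]` and all other entries `|V l i| ≤ lam / (4 k)`: the upper `k × k` block is diagonally
dominant (`det_ne_zero_of_sum_row_lt_diag`), so its determinant is not zero and `Inj V`. For smaller `lam` one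
matrix is enough. -/
def S_LFM : Prop := ∀ n k : ℕ, k ≤ n → ∃ c : ℝ, 0 < c ∧ ∀ lam : ℕ, 1 ≤ lam →
  {V : Matrix (Fin n) (Fin k) ℤ | Inj V ∧ ∀ l i, |V l i| ≤ lam}.Finite ∧
  c * (lam : ℝ) ^ (n * k) ≤
    ({V : Matrix (Fin n) (Fin k) ℤ | Inj V ∧ ∀ l i, |V l i| ≤ lam}.ncard : ℝ)

/-- the primitive well-rounded lattices of size `lam` -/
def WR (n k : ℕ) (η C : ℝ) (lam : ℕ) : Set (Set (Fin n → ℤ)) :=
  {Λ | Sat Λ ∧ ∃ B : Matrix (Fin n) (Fin k) ℤ, Inj B ∧ lat B = Λ ∧ η * (lam : ℝ) ^ k ≤ cov B ∧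
    cov B ≤ C * (lam : ℝ) ^ k ∧ ∀ i, (N B i : ℝ) ≤ C * (lam : ℝ) ^ 2}

/-- **LLB**: at least `c lam ^ (n k)` such lattices. Proof: for each matrix `V` of `S_LFM` the lattice
`Λ(V) = {v | ∃ d ≠ 0, d v ∈ lat V}` is primitive of rank `k` (`t_EXB` for `A = V`), with a reduced basis `B`, and
`S_LPT` applies: `N B i ≤ C lam²`, `cov ≤ C lam ^ k`, and the number of the `V` with `Λ(V) = Λ` is at most
`(C lam ^ k / cov Λ) ^ k` (all `k` columns are in `Λ` and in the cube). The lattices with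
`2 ^ (-j-1) η lam ^ k < cov ≤ 2 ^ (-j) η lam ^ k` are at most `C (2 ^ (-j) η lam ^ k) ^ n` (`S_LUB`) and account for at most
`C η ^ (n-k) 2 ^ (-j (n-k)) lam ^ (n k)` matrices; the sum over `j` is at most half of the total number
`≥ c lam ^ (n k)` if `η` is small (`k < n`). The others account for at most `(C / η) ^ k` matrices each. (All
covolumes are `≥ 1`.) -/
def S_LLB : Prop := S_LUB → S_LPT → S_LFM → ∀ n k : ℕ, 1 ≤ k → k < n →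
  ∃ c η C : ℝ, 0 < c ∧ 0 < η ∧ 1 ≤ C ∧ ∀ lam : ℕ, 1 ≤ lam →
    (WR n k η C lam).Finite ∧ c * (lam : ℝ) ^ (n * k) ≤ ((WR n k η C lam).ncard : ℝ)

/-! ### The number of forms -/

/-- **QPR**: primitive vectors. Proof: with `P x = ` number of the primitive elements of `W` with entries at
most `x`, the elements of `W` with entries at most `q` are the `d c'`, `1 ≤ d ≤ q`, `c'` primitive with entries at
most `q / d`: `c₀ q ^ r ≤ ∑_(d ≤ q) P (q / d)`, and `P x ≤ (3 x) ^ r` for `x ≥ 1`. The terms with `d > D` are at most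
`(3 q) ^ r ∑_(d > D) d ^ (-r) ≤ (3 q) ^ r / D` (`r ≥ 2`), less than `c₀ q ^ r / 2` for a constant `D`, and the others at
most `D P q`. -/
def S_QPR : Prop := ∀ (ι : Type) [Fintype ι] (W : Set (ι → ℤ)) (c₀ : ℝ), 2 ≤ Fintype.card ι →
  (∀ (c : ι → ℤ) (d : ℤ), d ≠ 0 → (d • c ∈ W ↔ c ∈ W)) → 0 ∉ W → 0 < c₀ →
  (∀ q : ℕ, 1 ≤ q → c₀ * (q : ℝ) ^ Fintype.card ι ≤
    ({c : ι → ℤ | c ∈ W ∧ ∀ α, |c α| ≤ q}.ncard : ℝ)) →
  ∃ c₁ : ℝ, 0 < c₁ ∧ ∀ q : ℕ, 1 ≤ q →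
    {c : ι → ℤ | c ∈ W ∧ (∀ α, |c α| ≤ q) ∧ ∀ d : ℤ, (∀ α, d ∣ c α) → IsUnit d}.Finite ∧
    c₁ * (q : ℝ) ^ Fintype.card ι ≤
      ({c : ι → ℤ | c ∈ W ∧ (∀ α, |c α| ≤ q) ∧ ∀ d : ℤ, (∀ α, d ∣ c α) → IsUnit d}.ncard : ℝ)

/-- the symmetric matrix with the upper part `c` -/
def symM {k : ℕ} (c : {p : Fin k × Fin k // p.1 ≤ p.2} → ℤ) : Matrix (Fin k) (Fin k) ℤ :=
  Matrix.of fun i j => c ⟨(min i j, max i j), min_le_max⟩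

/-- the upper triangular matrix -/
def uppM {k : ℕ} (c : {p : Fin k × Fin k // p.1 ≤ p.2} → ℤ) : Matrix (Fin k) (Fin k) ℤ :=
  Matrix.of fun i j => if h : i ≤ j then c ⟨(i, j), h⟩ else 0

/-- the alternating matrix with the upper part `c` -/
def altM {k : ℕ} (c : {p : Fin k × Fin k // p.1 < p.2} → ℤ) : Matrix (Fin k) (Fin k) ℤ :=
  Matrix.of fun i j => if h : i < j then c ⟨(i, j), h⟩ else if h : j < i then -c ⟨(j, i), h⟩ else 0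

/-- **QDS**. Diagonal dominance: `c i i ∈ [q/2, q]`, `|c i j| ≤ q / (4 k)` for `i < j`, if `q ≥ 4 k + 4`; for smaller
`q` the identity matrix. -/
def S_QDS : Prop := ∀ k : ℕ, 1 ≤ k → ∃ c₀ : ℝ, 0 < c₀ ∧ ∀ q : ℕ, 1 ≤ q →
  c₀ * (q : ℝ) ^ Fintype.card {p : Fin k × Fin k // p.1 ≤ p.2} ≤
    ({c : {p : Fin k × Fin k // p.1 ≤ p.2} → ℤ | (symM c).det ≠ 0 ∧ ∀ α, |c α| ≤ q}.ncard : ℝ)

/-- **QDQ**. The same for `c + cᵀ`. -/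
def S_QDQ : Prop := ∀ k : ℕ, 1 ≤ k → ∃ c₀ : ℝ, 0 < c₀ ∧ ∀ q : ℕ, 1 ≤ q →
  c₀ * (q : ℝ) ^ Fintype.card {p : Fin k × Fin k // p.1 ≤ p.2} ≤
    ({c : {p : Fin k × Fin k // p.1 ≤ p.2} → ℤ |
      (uppM c + (uppM c)ᵀ).det ≠ 0 ∧ ∀ α, |c α| ≤ q}.ncard : ℝ)

/-- **QDA**. `k` even, `i` is paired with `rev i`: `c (i, rev i) ∈ [q/2, q]` for `i < rev i`, all other entries at most
`q / (4 k)`: after a permutation of the columns by `rev` the matrix is diagonally dominant (`Matrix.det_permute'`). For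
small `q` the matrix with `c (i, rev i) = 1` and zeros. -/
def S_QDA : Prop := ∀ k : ℕ, 2 ≤ k → Even k → ∃ c₀ : ℝ, 0 < c₀ ∧ ∀ q : ℕ, 1 ≤ q →
  c₀ * (q : ℝ) ^ Fintype.card {p : Fin k × Fin k // p.1 < p.2} ≤
    ({c : {p : Fin k × Fin k // p.1 < p.2} → ℤ | (altM c).det ≠ 0 ∧ ∀ α, |c α| ≤ q}.ncard : ℝ)

/-- **BQB**. Let `A = B Q Bᵀ`. If `d` divides `A`, `A = d A'`, then (`d ≠ 0` as `A ≠ 0`; `k ≥ 1`) the columns of `A'`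
are in `lat B` (`Sat`), `A' = B Y`, `d Y = Q Bᵀ` (`Inj`), the rows `y_i` of `Y` satisfy `d y_i = B q_i`, so `y_i ∈ lat B`
(`Sat`), `y_i = B q'_i` and `d q'_i = q_i`: `d` divides `Q`, so it is a unit. The lattice: if `d v = A w ∈ lat B` then
`v ∈ lat B` (`Sat`); conversely with `G = Bᵀ B` the vector `w = B adj(G) adj(Q) e_j` has `A w = det G det Q b_j`. The
rank over `ℚ` is `k`: `B` has independent columns, `Q` is invertible. -/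
def S_BQB : Prop := ∀ (n k : ℕ) (B : Matrix (Fin n) (Fin k) ℤ) (Q : Matrix (Fin k) (Fin k) ℤ),
  1 ≤ k → Inj B → Sat (lat B) → Q.det ≠ 0 → Prim Q →
  Prim (B * Q * Bᵀ) ∧ ((B * Q * Bᵀ).map (Int.cast : ℤ → ℚ)).rank = k ∧
    {v : Fin n → ℤ | ∃ d : ℤ, d ≠ 0 ∧ ∃ w, d • v = (B * Q * Bᵀ) *ᵥ w} = lat B ∧
    ∀ Q' : Matrix (Fin k) (Fin k) ℤ, B * Q * Bᵀ = B * Q' * Bᵀ → Q = Q'

/-- **FAMQ**. `f (B x) = ∑ c i j x i x j`, `f = 0` outside of `lat B`. For the bound: with `G = Bᵀ B`,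
`x i ² ≤ (G⁻¹) i i |B x|²` and `(G⁻¹) i i = adj G i i / det G ≤ k! ∏_(j ≠ i) N B j / cov² ≤ C'' / lam²` (see `t_RED`), so
`|f v| ≤ k² q C'' |v|² / lam²`. -/
def S_FAMQ : Prop := ∀ (n k : ℕ) (η C : ℝ), 1 ≤ k → 0 < η → 1 ≤ C → ∃ C' : ℝ, 0 < C' ∧
  ∀ (lam q : ℕ) (B : Matrix (Fin n) (Fin k) ℤ) (c : Matrix (Fin k) (Fin k) ℤ), 1 ≤ lam → 1 ≤ q →
    Inj B → Sat (lat B) → η * (lam : ℝ) ^ k ≤ cov B → (∀ i, (N B i : ℝ) ≤ C * (lam : ℝ) ^ 2) →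
    (∀ i j, j < i → c i j = 0) → (c + cᵀ).det ≠ 0 → Prim c → (∀ i j, |c i j| ≤ q) →
    ∃ p : QPt n k, p.Λ = lat B ∧ IsForm B c p.f ∧
      ∀ v ∈ p.Λ, |(p.f v : ℝ)| ≤ C' * q * (lam : ℝ) ^ (-2 : ℝ) * ∑ l, (v l : ℝ) ^ 2

/-- **LOWA**: the abstract lower bound. Proof: let `s ≥ 2` be an integer with `s ^ k > C / η`, and `lam = s ^ j`. The
covolumes of the lattices in `WR n k η C (s ^ j)` are in `[η s ^ (j k), C s ^ (j k)]`, so these sets of lattices are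
disjoint for different `j` (`t_COV`). For `Λ₀` in this set, with basis `B`, and `q = ⌊(T / (K lam ^ (k n))) ^ (1/a)⌋ ≥ 1` (`K` a
constant, `lam ^ (k n) ≤ T / K`) all the points of `F` satisfy `h ^ a cov B ^ b ≤ T` with `h = C' q lam ^ τ`:
`h ^ a cov ^ b ≤ K q ^ a lam ^ (τ a + k b) = K q ^ a lam ^ (k n) ≤ T`. Their number is at least
`c' q ^ r ≥ c' 2 ^ (-r) T / (K lam ^ (k n))` as `r = a`, so there are at least `c c'' T` points for each `j`, and there are at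
least `c log T` values of `j ≥ 0`. -/
def S_LOWA : Prop := ∀ (n k r : ℕ) (P : Type) (Λ : P → Set (Fin n → ℤ)) (H : P → ℝ → Prop)
    (c η C c' C' τ b : ℝ), 1 ≤ k → k < n → 1 ≤ r → 0 < c → 0 < η → 1 ≤ C → 0 < c' → 0 < C' →
  (∀ lam : ℕ, 1 ≤ lam →
    (WR n k η C lam).Finite ∧ c * (lam : ℝ) ^ (n * k) ≤ ((WR n k η C lam).ncard : ℝ)) →
  (∀ lam : ℕ, 1 ≤ lam → ∀ Λ₀ ∈ WR n k η C lam, ∀ q : ℕ, 1 ≤ q → ∃ F : Finset P,
    (∀ p ∈ F, Λ p = Λ₀ ∧ H p (C' * q * (lam : ℝ) ^ τ)) ∧ c' * (q : ℝ) ^ r ≤ F.card) →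
  k * b + τ * r = k * n →
  ∃ c₂ T₀ : ℝ, 0 < c₂ ∧ 1 ≤ T₀ ∧ ∀ T : ℝ, T₀ ≤ T →
    {p : P | ∃ (B : Matrix (Fin n) (Fin k) ℤ) (h : ℝ), Inj B ∧ lat B = Λ p ∧ 0 < h ∧ H p h ∧
      h ^ (r : ℝ) * cov B ^ b ≤ T}.Finite →
    c₂ * T * Real.log T ≤
      ({p : P | ∃ (B : Matrix (Fin n) (Fin k) ℤ) (h : ℝ), Inj B ∧ lat B = Λ p ∧ 0 < h ∧ H p h ∧
        h ^ (r : ℝ) * cov B ^ b ≤ T}.ncard : ℝ)

end Pool.Agent.U115.WN
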