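import Pool.Agent.U115.WM.Asm
import Pool.Agent.U115.WN.Stm

/-!
# Project WN (helper115): the assembly
-/

set_option autoImplicit false

open scoped Classical
open Matrix

namespace Pool.Agent.U115.WN

open Pool.Agent.U115.WM

theorem card_le (k : ℕ) :
    ((Fintype.card {p : Fin k × Fin k // p.1 ≤ p.2} : ℕ) : ℝ) = k * (k + 1) / 2 ∧
    ((Fintype.card {p : Fin k × Fin k // p.1 < p.2} : ℕ) : ℝ) = k * (k - 1) / 2 := by
  have e1 : Fintype.card {p : Fin k × Fin k // p.1 ≤ p.2} =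
      ((Finset.univ : Finset (Fin k × Fin k)).filter fun p => p.1 ≤ p.2).card :=
    Fintype.card_subtype _
  have e2 : Fintype.card {p : Fin k × Fin k // p.1 < p.2} =
      ((Finset.univ : Finset (Fin k × Fin k)).filter fun p => p.1 < p.2).card :=
    Fintype.card_subtype _
  have e3 : ((Finset.univ : Finset (Fin k × Fin k)).filter fun p => p.1 ≤ p.2).card +
      ((Finset.univ : Finset (Fin k × Fin k)).filter fun p => ¬ p.1 ≤ p.2).card = k * k := by
    rw [Finset.card_filter_add_card_filter_not]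
    simp
  have e4 : ((Finset.univ : Finset (Fin k × Fin k)).filter fun p => ¬ p.1 ≤ p.2).card =
      ((Finset.univ : Finset (Fin k × Fin k)).filter fun p => p.1 < p.2).card := by
    refine Finset.card_bij (fun p _ => (p.2, p.1)) ?_ ?_ ?_
    · intro p hp
      simp only [Finset.mem_filter, Finset.mem_univ, true_and, not_le] at hp ⊢
      exact hp
    · rintro ⟨a, b⟩ _ ⟨c, d⟩ _ h
      simp only [Prod.mk.injEq] at h ⊢
      exact ⟨h.2, h.1⟩
    · intro p hp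
      simp only [Finset.mem_filter, Finset.mem_univ, true_and] at hp
      exact ⟨(p.2, p.1), by simpa using hp, rfl⟩
  have e5 : ((Finset.univ : Finset (Fin k × Fin k)).filter fun p => p.1 ≤ p.2).card =
      ((Finset.univ : Finset (Fin k × Fin k)).filter fun p => p.1 < p.2).card + k := by
    have : ((Finset.univ : Finset (Fin k × Fin k)).filter fun p => p.1 ≤ p.2) =
        ((Finset.univ : Finset (Fin k × Fin k)).filter fun p => p.1 < p.2) ∪
        (Finset.univ : Finset (Fin k)).image fun i => (i, i) := by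
      ext ⟨a, b⟩
      simp only [Finset.mem_filter, Finset.mem_univ, true_and, Finset.mem_union, Finset.mem_image,
        Prod.mk.injEq]
      constructor
      · intro h
        rcases lt_or_eq_of_le h with h | h
        · exact Or.inl h
        · exact Or.inr ⟨a, rfl, h⟩
      · rintro (h | ⟨i, rfl, rfl⟩)
        · exact h.le
        · exact le_rfl
    rw [this, Finset.card_union_of_disjoint, Finset.card_image_of_injective]
    · simp
    · intro i j h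
      simp only [Prod.mk.injEq] at h
      exact h.1
    · rw [Finset.disjoint_left]
      rintro ⟨a, b⟩ h1 h2
      simp only [Finset.mem_filter, Finset.mem_univ, true_and, Finset.mem_image,
        Prod.mk.injEq] at h1 h2
      obtain ⟨i, rfl, rfl⟩ := h2
      exact lt_irrefl _ h1
  rw [e1, e2]
  rw [e4] at e3
  have e3' : (((Finset.univ : Finset (Fin k × Fin k)).filter fun p => p.1 ≤ p.2).card : ℝ) +
      (((Finset.univ : Finset (Fin k × Fin k)).filter fun p => p.1 < p.2).card : ℝ) = k * k := by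
    exact_mod_cast e3
  have e5' : (((Finset.univ : Finset (Fin k × Fin k)).filter fun p => p.1 ≤ p.2).card : ℝ) =
      (((Finset.univ : Finset (Fin k × Fin k)).filter fun p => p.1 < p.2).card : ℝ) + k := by
    exact_mod_cast e5
  constructor <;> linarith

/-- the points with coordinates -/
def PS {P : Type} {n : ℕ} (k : ℕ) (Λ : P → Set (Fin n → ℤ)) (H : P → ℝ → Prop) (a b T : ℝ) :
    Set P :=
  {p : P | ∃ (B : Matrix (Fin n) (Fin k) ℤ) (h : ℝ), Inj B ∧ lat B = Λ p ∧ 0 < h ∧ H p h ∧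
        h ^ a * cov B ^ b ≤ T}

theorem combine {N : ℝ → ℝ} {c C T₀ : ℝ} {F : ℝ → Prop} (hc : 0 < c)
    (hu : ∀ T : ℝ, 1 ≤ T → F T ∧ N T ≤ C * T ^ (1 : ℝ) * (1 + Real.log T))
    (hl : ∀ T : ℝ, T₀ ≤ T → F T → c * T * Real.log T ≤ N T) :
    ∃ c' C' T₁ : ℝ, 0 < c' ∧ 2 ≤ T₁ ∧ ∀ T : ℝ, T₁ ≤ T → F T ∧ c' * (T * Real.log T) ≤ N T ∧
      N T ≤ C' * (T * Real.log T) := by
  refine ⟨c, 2 * |C|, max T₀ 3, hc, le_trans (by norm_num) (le_max_right _ _), fun T hT => ?_⟩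
  have h0 : T₀ ≤ T := (le_max_left _ _).trans hT
  have h3 : 3 ≤ T := (le_max_right _ _).trans hT
  obtain ⟨h1, h2⟩ := hu T (by linarith)
  refine ⟨h1, ?_, ?_⟩
  · rw [← mul_assoc]
    exact hl T h0 h1
  · have hlog : 1 ≤ Real.log T := by
      rw [Real.le_log_iff_exp_le (by linarith)]
      exact (Real.exp_one_lt_d9.le.trans (by norm_num)).trans h3
    rw [Real.rpow_one] at h2
    have h4 : C * T * (1 + Real.log T) ≤ |C| * T * (2 * Real.log T) := by
      have h5 : C * T ≤ |C| * T := mul_le_mul_of_nonneg_right (le_abs_self C) (by linarith)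
      have h6 : 1 + Real.log T ≤ 2 * Real.log T := by linarith
      have h7 : 0 ≤ |C| * T := mul_nonneg (abs_nonneg _) (by linarith)
      calc C * T * (1 + Real.log T) ≤ |C| * T * (1 + Real.log T) :=
            mul_le_mul_of_nonneg_right h5 (by linarith)
        _ ≤ _ := mul_le_mul_of_nonneg_left h6 h7
    linarith

/-- both kinds of matrices at once -/
theorem omat (hR : S_RED) (hV : S_COV) (hA : S_ABS2) (hZ : S_ZB) (hE : S_EXB) (hD : S_DEC)
    (hLL : S_LLB) (hLU : S_LUB) (hLP : S_LPT) (hLF : S_LFM) (hQ : S_QPR) (hB : S_BQB)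
    (hW : S_LOWA) (n k : ℕ) (hkn : k < n) (ι : Type) [Fintype ι] (u : ι → Fin k × Fin k)
    (hι : 2 ≤ Fintype.card ι)
    (ρ : ℝ) (hρ : 0 ≤ ρ) (hk : 1 ≤ k) (X : ∀ {m : ℕ}, Matrix (Fin m) (Fin m) ℤ → Prop)
    (hX : ∀ (m : ℕ) (A : Matrix (Fin m) (Fin m) ℤ), X A → (Aᵀ = A ∨ Aᵀ = -A))
    (hXB : ∀ (B : Matrix (Fin n) (Fin k) ℤ) (Q : Matrix (Fin k) (Fin k) ℤ), X Q →
      X (B * Q * Bᵀ))
    (hu : ∀ Q Q' : Matrix (Fin k) (Fin k) ℤ, ∀ A A' : Matrix (Fin n) (Fin n) ℤ, X A → X A' →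
      ((Aᵀ = A → Qᵀ = Q) ∧ (Aᵀ = -A → Qᵀ = -Q)) → ((A'ᵀ = A' → Q'ᵀ = Q') ∧ (A'ᵀ = -A' → Q'ᵀ = -Q')) →
      (∀ α, Q (u α).1 (u α).2 = Q' (u α).1 (u α).2) → Q = Q')
    (mk : (ι → ℤ) → Matrix (Fin k) (Fin k) ℤ) (hmX : ∀ c, X (mk c))
    (hmu : ∀ c α, mk c (u α).1 (u α).2 = c α)
    (hms : ∀ (c : ι → ℤ) (d : ℤ), mk (d • c) = d • mk c)
    (hmb : ∀ (c : ι → ℤ) (q : ℕ), (∀ α, |c α| ≤ q) → ∀ i j, |mk c i j| ≤ q)
    (hmd : ∃ c₀ : ℝ, 0 < c₀ ∧ ∀ q : ℕ, 1 ≤ q → c₀ * (q : ℝ) ^ Fintype.card ι ≤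
      ({c : ι → ℤ | (mk c).det ≠ 0 ∧ ∀ α, |c α| ≤ q}.ncard : ℝ))
    (hC : ∀ (e : Fin k → ℕ) (M : ℝ), Monotone e → 0 < M → (∀ i, (2 : ℝ) ^ (e i + e i.rev) ≤ M) →
      ∏ α : ι, max 1 (M / 2 ^ (e (u α).1 + e (u α).2)) ≤
        (M ^ (k : ℝ) * vol e ^ (-2 : ℝ)) ^ ρ * gap e * (2 : ℝ) ^ (-(spr e : ℝ) / 2) ∧
        vol e ^ (2 : ℝ) ≤ M ^ (k : ℝ))
    (b : ℝ) (hr : (Fintype.card ι : ℝ) = k * ρ) (hb : k * b + 2 * (Fintype.card ι : ℝ) = k * n) :
    ∃ c' C' T₁ : ℝ, 0 < c' ∧ 2 ≤ T₁ ∧ ∀ T : ℝ, T₁ ≤ T →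
      {A : Matrix (Fin n) (Fin n) ℤ | X A ∧ Prim A ∧ (A.map (Int.cast : ℤ → ℚ)).rank = k ∧
        ∃ (B : Matrix (Fin n) (Fin k) ℤ) (h : ℝ), IsBas A B ∧ 0 < h ∧ (∀ i j, |(A i j : ℝ)| ≤ h) ∧
        h ^ (Fintype.card ι : ℝ) * cov B ^ b ≤ T}.Finite ∧
      c' * (T * Real.log T) ≤
      ({A : Matrix (Fin n) (Fin n) ℤ | X A ∧ Prim A ∧ (A.map (Int.cast : ℤ → ℚ)).rank = k ∧
        ∃ (B : Matrix (Fin n) (Fin k) ℤ) (h : ℝ), IsBas A B ∧ 0 < h ∧ (∀ i j, |(A i j : ℝ)| ≤ h) ∧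
        h ^ (Fintype.card ι : ℝ) * cov B ^ b ≤ T}.ncard : ℝ) ∧
      ({A : Matrix (Fin n) (Fin n) ℤ | X A ∧ Prim A ∧ (A.map (Int.cast : ℤ → ℚ)).rank = k ∧
        ∃ (B : Matrix (Fin n) (Fin k) ℤ) (h : ℝ), IsBas A B ∧ 0 < h ∧ (∀ i j, |(A i j : ℝ)| ≤ h) ∧
        h ^ (Fintype.card ι : ℝ) * cov B ^ b ≤ T}.ncard : ℝ) ≤ C' * (T * Real.log T) := by
  obtain ⟨C₀, hC₀, hR⟩ := hR n k
  obtain ⟨C₁, hC₁, hQQ⟩ := hD n k C₀ hC₀
  set P : Type := {A : Matrix (Fin n) (Fin n) ℤ // X A ∧ Prim A ∧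
    (A.map (Int.cast : ℤ → ℚ)).rank = k} with hP
  set cf : Matrix (Fin n) (Fin k) ℤ → P → ι → ℤ := fun B p α =>
    if h : Red C₀ B ∧ IsBas p.1 B then
      (hQQ p.1 B (hX n _ p.2.1) h.1 h.2).choose (u α).1 (u α).2 else 0 with hcf
  have hcf' : ∀ (p : P) (B) (h1 : Red C₀ B) (h2 : IsBas p.1 B), ∀ α, cf B p α =
      (hQQ p.1 B (hX n _ p.2.1) h1 h2).choose (u α).1 (u α).2 := by
    intro p B h1 h2 α
    rw [hcf]
    simp only
    rw [dif_pos ⟨h1, h2⟩]
  have hk0 : (0 : ℝ) < k := by exact_mod_cast hk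
  have hn0 : (0 : ℝ) < n := by
    have : 0 < n := by omega
    exact_mod_cast this
  have hc0 : (0 : ℝ) < Fintype.card ι := by
    have : 0 < Fintype.card ι := by omega
    exact_mod_cast this
  have upper := hA n k ι (fun e α => 2 ^ (e (u α).1 + e (u α).2))
    (fun e M => ∀ i, (2 : ℝ) ^ (e i + e i.rev) ≤ M) k 2 ρ C₀ C₁ P (fun p => sat p.1)
    (fun p h => ∀ i j, |(p.1 i j : ℝ)| ≤ h) cf (by exact_mod_cast hk) hρ hC₀ hC₁
    (fun e α => by positivity) (fun e M M' h hM i => (h i).trans hM)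
    (fun p => by
      obtain ⟨B, hB⟩ := hE n n k p.1 p.2.2.2
      rw [isBas_iff] at hB
      obtain ⟨B', h1, h2⟩ := exists_red hV hR B hB.1
      exact ⟨B', h1, h2.trans hB.2⟩)
    (fun p h B h0 hh hB hl => by
      have hb : IsBas p.1 B := isBas_iff.2 ⟨hB.inj, hl⟩
      have hs := (hQQ p.1 B (hX n _ p.2.1) hB hb).choose_spec.1
      set Q := (hQQ p.1 B (hX n _ p.2.1) hB hb).choose with hQd
      obtain ⟨-, -, -, hdet, hbd⟩ := hs
      have hbd' := hbd h hh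
      refine ⟨fun α => ?_, ?_⟩
      · rw [hcf' p B hB hb α]
        exact hbd' _ _
      · exact (hZ k Q (typ B) (C₁ * h) (typ_mono hB) hdet).1 hbd')
    (fun p p' B hB hl hl' hc => by
      have hb : IsBas p.1 B := isBas_iff.2 ⟨hB.inj, hl⟩
      have hb' : IsBas p'.1 B := isBas_iff.2 ⟨hB.inj, hl'⟩
      have hs := (hQQ p.1 B (hX n _ p.2.1) hB hb).choose_spec.1
      have hs' := (hQQ p'.1 B (hX n _ p'.2.1) hB hb').choose_spec.1
      have hc' : ∀ α, (hQQ p.1 B (hX n _ p.2.1) hB hb).choose (u α).1 (u α).2 =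
          (hQQ p'.1 B (hX n _ p'.2.1) hB hb').choose (u α).1 (u α).2 := fun α => by
        rw [← hcf' p B hB hb α, ← hcf' p' B hB hb' α, hc]
      have e := hu _ _ p.1 p'.1 p.2.1 p'.2.1 ⟨hs.2.1, hs.2.2.1⟩ ⟨hs'.2.1, hs'.2.2.1⟩ hc'
      refine Subtype.ext ?_
      have g1 := hs.1
      have g2 := hs'.1
      rw [e] at g1
      exact g1.trans g2.symm)
    ⟨1, fun e M he hM hN => by rw [one_mul]; exact (hC e M he hM hN).1⟩
    ⟨1, one_pos, fun e M he hM hN => by rw [one_mul]; exact (hC e M he hM hN).2⟩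
    (Fintype.card ι) b 1 hc0 (by rw [hb]; positivity) (by rw [hr, mul_one])
    (by rw [hb, one_mul])
  obtain ⟨Cu, hCu⟩ := upper
  obtain ⟨cl, η, Cl, hcl, hη, hCl, hWR⟩ := hLL hLU hLP hLF n k hk hkn
  obtain ⟨c₀, hc₀, hmd⟩ := hmd
  obtain ⟨c₁, hc₁, hprim⟩ := hQ ι {c | (mk c).det ≠ 0} c₀ hι
    (fun c d hd => by
      simp only [Set.mem_ofPred_eq, hms, Matrix.det_smul, ne_eq, mul_eq_zero, pow_eq_zero_iff',
        Fintype.card_fin]
      tauto)
    (by
      simp only [Set.mem_ofPred_eq, not_not]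
      have h0 : mk 0 = 0 := by
        have := hms 0 0
        simpa using this
      rw [h0]
      haveI : Nonempty (Fin k) := ⟨⟨0, by omega⟩⟩
      simp [Matrix.det_zero])
    hc₀ (fun q hq => hmd q hq)
  have lower := hW n k (Fintype.card ι) P (fun p => sat p.1)
    (fun p h => ∀ i j, |(p.1 i j : ℝ)| ≤ h) cl η Cl c₁ (k ^ 2 * Cl) 2 b hk hkn (by omega) hcl hη hCl
    hc₁ (by positivity) hWR
    (fun lam hlam Λ₀ hΛ q hq => by
      obtain ⟨hS, B, hBi, hBl, hB1, hB2, hB3⟩ := hΛ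
      obtain ⟨hfin, hcard⟩ := hprim q hq
      have hsat : Sat (lat B) := by rw [hBl]; exact hS
      have hP : ∀ c : ι → ℤ, (∀ d : ℤ, (∀ α, d ∣ c α) → IsUnit d) → Prim (mk c) :=
        fun c hc d hd => hc d fun α => by
          rw [← hmu c α]
          exact hd _ _
      set g : {c : ι → ℤ // c ∈ {c : ι → ℤ | c ∈ {c | (mk c).det ≠ 0} ∧ (∀ α, |c α| ≤ q) ∧
          ∀ d : ℤ, (∀ α, d ∣ c α) → IsUnit d}} → P := fun c =>
        ⟨B * mk c.1 * Bᵀ, hXB B _ (hmX _),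
          (hB n k B (mk c.1) hk hBi hsat c.2.1 (hP c.1 c.2.2.2)).1,
          (hB n k B (mk c.1) hk hBi hsat c.2.1 (hP c.1 c.2.2.2)).2.1⟩ with hg
      have hgi : Function.Injective g := by
        intro c c' hcc
        have h1 : B * mk c.1 * Bᵀ = B * mk c'.1 * Bᵀ := congrArg Subtype.val hcc
        have h2 := (hB n k B (mk c.1) hk hBi hsat c.2.1 (hP c.1 c.2.2.2)).2.2.2 _ h1
        refine Subtype.ext (funext fun α => ?_)
        rw [← hmu c.1 α, ← hmu c'.1 α, h2]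
      haveI := hfin.fintype
      refine ⟨Finset.univ.image g, fun p hp => ?_, ?_⟩
      · obtain ⟨c, -, rfl⟩ := Finset.mem_image.1 hp
        refine ⟨?_, fun l m => ?_⟩
        · have := (hB n k B (mk c.1) hk hBi hsat c.2.1 (hP c.1 c.2.2.2)).2.2.1
          rw [← hBl, ← this]
          rfl
        · have hBb : ∀ l i, |(B l i : ℝ)| ≤ √Cl * lam := by
            intro l i
            have h1 : (B l i : ℝ) ^ 2 ≤ (N B i : ℝ) := by
              have : B l i ^ 2 ≤ N B i :=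
                Finset.single_le_sum (f := fun l => B l i ^ 2) (fun l _ => sq_nonneg _)
                  (Finset.mem_univ l)
              exact_mod_cast this
            have h2 : (B l i : ℝ) ^ 2 ≤ (√Cl * lam) ^ 2 := by
              rw [mul_pow, Real.sq_sqrt (by linarith)]
              exact h1.trans (hB3 i)
            have h3 : 0 ≤ √Cl * (lam : ℝ) := by positivity
            exact abs_le_of_sq_le_sq h2 h3
          have hq' : ∀ i j, |((mk c.1) i j : ℝ)| ≤ q := fun i j => by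
            have := hmb c.1 q c.2.2.1 i j
            exact_mod_cast this
          have e : (((B * mk c.1 * Bᵀ) l m : ℤ) : ℝ) =
              ∑ j, ∑ i, (B l i : ℝ) * (mk c.1 i j : ℝ) * (B m j : ℝ) := by
            simp only [Matrix.mul_apply, Matrix.transpose_apply, Finset.sum_mul]
            push_cast
            rfl
          show |(((B * mk c.1 * Bᵀ) l m : ℤ) : ℝ)| ≤ _
          rw [e]
          calc |∑ j, ∑ i, (B l i : ℝ) * (mk c.1 i j : ℝ) * (B m j : ℝ)|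
              ≤ ∑ j : Fin k, ∑ i : Fin k, (√Cl * lam) * q * (√Cl * lam) := by
                refine (Finset.abs_sum_le_sum_abs _ _).trans (Finset.sum_le_sum fun j _ => ?_)
                refine (Finset.abs_sum_le_sum_abs _ _).trans (Finset.sum_le_sum fun i _ => ?_)
                rw [abs_mul, abs_mul]
                have h3 : 0 ≤ √Cl * (lam : ℝ) := by positivity
                exact mul_le_mul (mul_le_mul (hBb _ _) (hq' _ _) (abs_nonneg _) h3) (hBb _ _)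
                  (abs_nonneg _) (by positivity)
            _ = k ^ 2 * Cl * q * (lam : ℝ) ^ (2 : ℝ) := by
                simp only [Finset.sum_const, Finset.card_univ, Fintype.card_fin, nsmul_eq_mul]
                rw [show (2 : ℝ) = ((2 : ℕ) : ℝ) by norm_num, Real.rpow_natCast]
                have := Real.mul_self_sqrt (show (0 : ℝ) ≤ Cl by linarith)
                calc (k : ℝ) * (k * (√Cl * lam * q * (√Cl * lam))) =
                    k ^ 2 * (√Cl * √Cl) * q * lam ^ 2 := by ring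
                  _ = _ := by rw [this]
      · rw [Finset.card_image_of_injective _ hgi, Finset.card_univ]
        have hcc : ∀ (S' : Set (ι → ℤ)) [Fintype S'], Fintype.card S' = S'.ncard := fun S' _ => by
          rw [← Nat.card_eq_fintype_card]; rfl
        rw [hcc]
        exact hcard)
    hb
  obtain ⟨c₂, T₀, hc₂, hT₀, hlow⟩ := lower
  set S : ℝ → Set P := fun T => {p : P | ∃ (B : Matrix (Fin n) (Fin k) ℤ) (h : ℝ), Inj B ∧
    lat B = sat p.1 ∧ 0 < h ∧ (∀ i j, |(p.1 i j : ℝ)| ≤ h) ∧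
    h ^ (Fintype.card ι : ℝ) * cov B ^ b ≤ T} with hS
  obtain ⟨c', C', T₁, h1, h2, h3⟩ := combine (N := fun T => ((S T).ncard : ℝ))
    (F := fun T => (S T).Finite) hc₂ hCu hlow
  refine ⟨c', C', T₁, h1, h2, fun T hT => ?_⟩
  obtain ⟨g1, g2, g3⟩ := h3 T hT
  have himg : {A : Matrix (Fin n) (Fin n) ℤ | X A ∧ Prim A ∧
        (A.map (Int.cast : ℤ → ℚ)).rank = k ∧
        ∃ (B : Matrix (Fin n) (Fin k) ℤ) (h : ℝ), IsBas A B ∧ 0 < h ∧ (∀ i j, |(A i j : ℝ)| ≤ h) ∧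
        h ^ (Fintype.card ι : ℝ) * cov B ^ b ≤ T} = Subtype.val '' S T := by
    ext A
    constructor
    · rintro ⟨hXA, hpr, hrk, B, h, hB, h0, hh, hT'⟩
      exact ⟨⟨A, hXA, hpr, hrk⟩, ⟨B, h, (isBas_iff.1 hB).1, (isBas_iff.1 hB).2, h0, hh, hT'⟩, rfl⟩
    · rintro ⟨p, ⟨B, h, hi, hl, h0, hh, hT'⟩, rfl⟩
      exact ⟨p.2.1, p.2.2.1, p.2.2.2, B, h, isBas_iff.2 ⟨hi, hl⟩, h0, hh, hT'⟩
  rw [himg, Set.ncard_image_of_injective _ Subtype.val_injective]
  exact ⟨g1.image _, g2, g3⟩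

end Pool.Agent.U115.WN
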