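import Pool.Agent.U115.WN.Asm

/-!
# Project WN (helper115): quadrics in linear subspaces
-/

set_option autoImplicit false

open scoped Classical
open Matrix

namespace Pool.Agent.U115.WN

open Pool.Agent.U115.WM

theorem upp_unique {k : ℕ} {c c' : Matrix (Fin k) (Fin k) ℤ} (h1 : ∀ i j, j < i → c i j = 0)
    (h2 : ∀ i j, j < i → c' i j = 0)
    (h : ∀ x : Fin k → ℤ, ∑ i, ∑ j, c i j * x i * x j = ∑ i, ∑ j, c' i j * x i * x j) : c = c' := by
  have key : ∀ (c : Matrix (Fin k) (Fin k) ℤ) (a b : Fin k),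
      ∑ i, ∑ j, c i j * (Pi.single a 1 + Pi.single b 1 : Fin k → ℤ) i *
        (Pi.single a 1 + Pi.single b 1 : Fin k → ℤ) j = c a a + c a b + c b a + c b b := by
    intro c a b
    simp only [Pi.add_apply, mul_add, add_mul, Finset.sum_add_distrib, Pi.single_apply, mul_ite,
      mul_one, mul_zero, Finset.sum_ite_eq', Finset.mem_univ, if_true, ite_mul, zero_mul,
      Finset.sum_ite_irrel, Finset.sum_const_zero]
    ring
  have hd : ∀ a, c a a = c' a a := fun a => by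
    have := h (Pi.single a 1 + Pi.single a 1)
    rw [key, key] at this
    omega
  ext i j
  have := h (Pi.single i 1 + Pi.single j 1)
  rw [key, key, hd i, hd j] at this
  rcases lt_trichotomy i j with hij | hij | hij
  · have e1 := h1 j i hij
    have e2 := h2 j i hij
    omega
  · subst hij
    exact hd i
  · rw [h1 i j hij, h2 i j hij]

theorem oqua (hR : S_RED) (hV : S_COV) (hA : S_ABS2) (hZ : S_ZB) (hD : S_DCQ)
    (hLL : S_LLB) (hLU : S_LUB) (hLP : S_LPT) (hLF : S_LFM) (hQ : S_QPR)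
    (hW : S_LOWA) (hC : S_CMQ) (hC2 : S_CMS2) (hC3 : S_CMQ2) (hQD : S_QDQ) (hF : S_FAMQ) (n k : ℕ)
    (hk : 3 ≤ k) (hkn : k < n) :
    ∃ c' C' T₁ : ℝ, 0 < c' ∧ 2 ≤ T₁ ∧ ∀ T : ℝ, T₁ ≤ T →
    {p : QPt n k | ∃ (B : Matrix (Fin n) (Fin k) ℤ) (h : ℝ), Inj B ∧ lat B = p.Λ ∧ 0 < h ∧
      (∀ v ∈ p.Λ, |(p.f v : ℝ)| ≤ h * ∑ l, (v l : ℝ) ^ 2) ∧
      h ^ ((k : ℝ) * (k + 1) / 2) * cov B ^ ((n : ℝ) + k + 1) ≤ T}.Finite ∧
    c' * (T * Real.log T) ≤
    ({p : QPt n k | ∃ (B : Matrix (Fin n) (Fin k) ℤ) (h : ℝ), Inj B ∧ lat B = p.Λ ∧ 0 < h ∧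
      (∀ v ∈ p.Λ, |(p.f v : ℝ)| ≤ h * ∑ l, (v l : ℝ) ^ 2) ∧
      h ^ ((k : ℝ) * (k + 1) / 2) * cov B ^ ((n : ℝ) + k + 1) ≤ T}.ncard : ℝ) ∧
    ({p : QPt n k | ∃ (B : Matrix (Fin n) (Fin k) ℤ) (h : ℝ), Inj B ∧ lat B = p.Λ ∧ 0 < h ∧
      (∀ v ∈ p.Λ, |(p.f v : ℝ)| ≤ h * ∑ l, (v l : ℝ) ^ 2) ∧
      h ^ ((k : ℝ) * (k + 1) / 2) * cov B ^ ((n : ℝ) + k + 1) ≤ T}.ncard : ℝ) ≤
      C' * (T * Real.log T) := by
  have hcard := (card_le k).1
  have hkr : (3 : ℝ) ≤ k := by exact_mod_cast hk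
  have hk1 : 1 ≤ k := by omega
  have hk0 : (0 : ℝ) < k := by linarith
  have hn0 : (0 : ℝ) < n := by
    have : 0 < n := by omega
    exact_mod_cast this
  have hι : 2 ≤ Fintype.card {p : Fin k × Fin k // p.1 ≤ p.2} := by
    have : (2 : ℝ) ≤ (Fintype.card {p : Fin k × Fin k // p.1 ≤ p.2} : ℝ) := by
      rw [hcard]; nlinarith
    exact_mod_cast this
  obtain ⟨C₀, hC₀, hR⟩ := hR n k
  set cf : Matrix (Fin n) (Fin k) ℤ → QPt n k → {p : Fin k × Fin k // p.1 ≤ p.2} → ℤ :=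
    fun B p α => if h : Red C₀ B ∧ lat B = p.Λ then (hD n k C₀ p B h.1 h.2).choose α.1.1 α.1.2
      else 0 with hcf
  have hcf' : ∀ (p : QPt n k) (B) (h1 : Red C₀ B) (h2 : lat B = p.Λ), ∀ α, cf B p α =
      (hD n k C₀ p B h1 h2).choose α.1.1 α.1.2 := by
    intro p B h1 h2 α
    rw [hcf]
    simp only
    rw [dif_pos ⟨h1, h2⟩]
  have upper := hA n k {p : Fin k × Fin k // p.1 ≤ p.2}
    (fun e α => ((2 : ℝ) ^ (e α.1.1 + e α.1.2))⁻¹)
    (fun e M => ∀ i, 1 ≤ M * (2 : ℝ) ^ (e i + e i.rev)) k (-2) (((k : ℝ) + 1) / 2) C₀ 24 (QPt n k)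
    (fun p => p.Λ) (fun p h => ∀ v ∈ p.Λ, |(p.f v : ℝ)| ≤ h * ∑ l, (v l : ℝ) ^ 2) cf
    hk0 (by positivity) hC₀ (by norm_num) (fun e α => by positivity)
    (fun e M M' h hM i => (h i).trans (mul_le_mul_of_nonneg_right hM (by positivity)))
    (fun p => by
      obtain ⟨B, c, hB, hl, -⟩ := p.ex
      obtain ⟨B', h1, h2⟩ := exists_red hV hR B hB
      exact ⟨B', h1, h2.trans hl⟩)
    (fun p h B h0 hh hB hl => by
      have hs := (hD n k C₀ p B hB hl).choose_spec.1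
      set c := (hD n k C₀ p B hB hl).choose with hcd
      obtain ⟨-, hdet, hbd⟩ := hs
      have hbd' := hbd h h0 hh
      refine ⟨fun α => ?_, ?_⟩
      · rw [hcf' p B hB hl α, ← div_eq_mul_inv, div_le_iff₀ (by positivity)]
        exact (hbd' _ _).2
      · refine (hZ k (c + cᵀ) (typ B) (24 * h) (typ_mono hB) hdet).2 (by positivity) fun i j => ?_
        exact (hbd' i j).1)
    (fun p p' B hB hl hl' hc => by
      have hs := (hD n k C₀ p B hB hl).choose_spec.1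
      have hs' := (hD n k C₀ p' B hB hl').choose_spec.1
      have hc' : ∀ α : {p : Fin k × Fin k // p.1 ≤ p.2},
          (hD n k C₀ p B hB hl).choose α.1.1 α.1.2 =
          (hD n k C₀ p' B hB hl').choose α.1.1 α.1.2 := fun α => by
        rw [← hcf' p B hB hl α, ← hcf' p' B hB hl' α, hc]
      have e : (hD n k C₀ p B hB hl).choose = (hD n k C₀ p' B hB hl').choose := by
        ext i j
        rcases le_or_gt i j with hij | hij
        · exact hc' ⟨(i, j), hij⟩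
        · rw [hs.1.1 i j hij, hs'.1.1 i j hij]
      have hf : p.f = p'.f := by
        funext v
        by_cases hv : v ∈ lat B
        · obtain ⟨x, rfl⟩ := hv
          have g1 := hs.1.2.1 x
          have g2 := hs'.1.2.1 x
          rw [e] at g1
          exact g1.trans g2.symm
        · rw [hs.1.2.2 v hv, hs'.1.2.2 v hv]
      have hΛ : p.Λ = p'.Λ := hl.symm.trans hl'
      cases p
      cases p'
      simp only at hf hΛ
      subst hf hΛ
      rfl)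
    ⟨1, fun e M he hM hN => by
      have := hC3 hC2 k e M hk he hM hN
      simp only [div_inv_eq_mul, neg_neg, one_mul]
      exact this⟩
    ⟨1, one_pos, fun e M he hM hN => by rw [one_mul]; exact (hC k e M he hM hN).2⟩
    (Fintype.card {p : Fin k × Fin k // p.1 ≤ p.2}) ((n : ℝ) + k + 1) 1
    (by rw [hcard]; positivity)
    (by
      rw [hcard]
      have : (k : ℝ) * (n + k + 1) + -2 * (k * (k + 1) / 2) = k * n := by ring
      rw [this]
      positivity)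
    (by rw [hcard]; apply le_of_eq; ring) (by rw [hcard]; apply le_of_eq; ring)
  obtain ⟨Cu, hCu⟩ := upper
  obtain ⟨cl, η, Cl, hcl, hη, hCl, hWR⟩ := hLL hLU hLP hLF n k hk1 hkn
  obtain ⟨Cf, hCf, hfam⟩ := hF n k η Cl hk1 hη hCl
  obtain ⟨c₀, hc₀, hmd⟩ := hQD k hk1
  obtain ⟨c₁, hc₁, hprim⟩ := hQ {p : Fin k × Fin k // p.1 ≤ p.2}
    {c | (uppM c + (uppM c)ᵀ).det ≠ 0} c₀ hι
    (fun c d hd => by
      have hms : uppM (d • c) = d • uppM c := by
        ext i j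
        simp only [uppM, Matrix.of_apply, Matrix.smul_apply, Pi.smul_apply, smul_eq_mul]
        split_ifs <;> simp
      simp only [Set.mem_ofPred_eq, hms, Matrix.transpose_smul, ← smul_add, Matrix.det_smul, ne_eq,
        mul_eq_zero, pow_eq_zero_iff', Fintype.card_fin]
      tauto)
    (by
      simp only [Set.mem_ofPred_eq, not_not]
      have h0 : uppM (0 : {p : Fin k × Fin k // p.1 ≤ p.2} → ℤ) = 0 := by
        ext i j
        simp [uppM]
      rw [h0]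
      have : Nonempty (Fin k) := ⟨⟨0, by omega⟩⟩
      simp [Matrix.det_zero])
    hc₀ (fun q hq => hmd q hq)
  have lower := hW n k (Fintype.card {p : Fin k × Fin k // p.1 ≤ p.2}) (QPt n k) (fun p => p.Λ)
    (fun p h => ∀ v ∈ p.Λ, |(p.f v : ℝ)| ≤ h * ∑ l, (v l : ℝ) ^ 2) cl η Cl c₁ Cf (-2)
    ((n : ℝ) + k + 1) hk1 hkn (by omega) hcl hη hCl hc₁ hCf hWR
    (fun lam hlam Λ₀ hΛ q hq => by
      obtain ⟨hS, B, hBi, hBl, hB1, hB2, hB3⟩ := hΛ
      obtain ⟨hfin, hcd⟩ := hprim q hq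
      have hsat : Sat (lat B) := by rw [hBl]; exact hS
      have hupp : ∀ (c : {p : Fin k × Fin k // p.1 ≤ p.2} → ℤ) (α), uppM c α.1.1 α.1.2 = c α := by
        intro c α
        simp only [uppM, Matrix.of_apply]
        rw [dif_pos α.2]
      have hlow : ∀ (c : {p : Fin k × Fin k // p.1 ≤ p.2} → ℤ) (i j), j < i → uppM c i j = 0 := by
        intro c i j hij
        simp only [uppM, Matrix.of_apply]
        rw [dif_neg hij.not_ge]
      have hP : ∀ c : {p : Fin k × Fin k // p.1 ≤ p.2} → ℤ,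
          (∀ d : ℤ, (∀ α, d ∣ c α) → IsUnit d) → Prim (uppM c) :=
        fun c hc d hd => hc d fun α => by
          rw [← hupp c α]
          exact hd _ _
      have hb : ∀ c : {p : Fin k × Fin k // p.1 ≤ p.2} → ℤ, (∀ α, |c α| ≤ q) →
          ∀ i j, |uppM c i j| ≤ q := by
        intro c hc i j
        simp only [uppM, Matrix.of_apply]
        split_ifs
        · exact hc _
        · simp
      have hex : ∀ c : {c : {p : Fin k × Fin k // p.1 ≤ p.2} → ℤ // c ∈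
          {c : {p : Fin k × Fin k // p.1 ≤ p.2} → ℤ | c ∈ {c | (uppM c + (uppM c)ᵀ).det ≠ 0} ∧
          (∀ α, |c α| ≤ q) ∧ ∀ d : ℤ, (∀ α, d ∣ c α) → IsUnit d}},
          ∃ p : QPt n k, p.Λ = lat B ∧ IsForm B (uppM c.1) p.f ∧
          ∀ v ∈ p.Λ, |(p.f v : ℝ)| ≤ Cf * q * (lam : ℝ) ^ (-2 : ℝ) * ∑ l, (v l : ℝ) ^ 2 := fun c =>
        hfam lam q B (uppM c.1) hlam hq hBi hsat hB1 hB3 (hlow c.1) c.2.1 (hP c.1 c.2.2.2)
          (hb c.1 c.2.2.1)
      choose g hg1 hg2 hg3 using hex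
      have hgi : Function.Injective g := by
        intro c c' hcc
        have e1 := hg2 c
        have e2 := hg2 c'
        rw [hcc] at e1
        have := upp_unique e1.1 e2.1 fun x => (e1.2.1 x).symm.trans (e2.2.1 x)
        refine Subtype.ext (funext fun α => ?_)
        rw [← hupp c.1 α, ← hupp c'.1 α, this]
      have := hfin.fintype
      refine ⟨Finset.univ.image g, fun p hp => ?_, ?_⟩
      · obtain ⟨c, -, rfl⟩ := Finset.mem_image.1 hp
        exact ⟨(hg1 c).trans hBl, hg3 c⟩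
      · rw [Finset.card_image_of_injective _ hgi, Finset.card_univ]
        have hcc : ∀ (S' : Set ({p : Fin k × Fin k // p.1 ≤ p.2} → ℤ)) [Fintype S'],
            Fintype.card S' = S'.ncard := fun S' _ => by
          rw [← Nat.card_eq_fintype_card]; rfl
        rw [hcc]
        exact hcd)
    (by rw [hcard]; ring)
  obtain ⟨c₂, T₀, hc₂, hT₀, hlow⟩ := lower
  rw [hcard] at hCu hlow
  exact combine (N := fun T => (({p : QPt n k | ∃ (B : Matrix (Fin n) (Fin k) ℤ) (h : ℝ), Inj B ∧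
      lat B = p.Λ ∧ 0 < h ∧ (∀ v ∈ p.Λ, |(p.f v : ℝ)| ≤ h * ∑ l, (v l : ℝ) ^ 2) ∧
      h ^ ((k : ℝ) * (k + 1) / 2) * cov B ^ ((n : ℝ) + k + 1) ≤ T}.ncard : ℝ)))
    (F := fun T => {p : QPt n k | ∃ (B : Matrix (Fin n) (Fin k) ℤ) (h : ℝ), Inj B ∧
      lat B = p.Λ ∧ 0 < h ∧ (∀ v ∈ p.Λ, |(p.f v : ℝ)| ≤ h * ∑ l, (v l : ℝ) ^ 2) ∧
      h ^ ((k : ℝ) * (k + 1) / 2) * cov B ^ ((n : ℝ) + k + 1) ≤ T}.Finite) hc₂ hCu hlow

end Pool.Agent.U115.WN
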