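import Pool.Agent.U115.WN.Mat
import Pool.Agent.U115.WN.Qua
import Pool.Agent.U580.WM.RED
import Pool.Agent.U333.WM.COV
import Pool.Agent.U461.WM.CMS
import Pool.Agent.U643.WM.CMQ
import Pool.Agent.U95.WM.ZB
import Pool.Agent.U618.WM.EXB
import Pool.Agent.U255.WM.DEC
import Pool.Agent.U784.WM.DCQ
import Pool.Agent.U439.WN.ABS2
import Pool.Agent.U480.WN.CMS2
import Pool.Agent.U981.WN.CMA2
import Pool.Agent.U559.WN.CMQ2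
import Pool.Agent.U618.WN.LUB
import Pool.Agent.U44.WN.LPT
import Pool.Agent.U427.WN.LFM
import Pool.Agent.U591.WN.QPR
import Pool.Agent.U165.WN.QDS
import Pool.Agent.U399.WN.QDQ
import Pool.Agent.U438.WN.QDA
import Pool.Agent.U660.WN.BQB
import Pool.Agent.U803.WN.FAMQ
import Pool.Agent.U329.WN.LOWA
import Pool.Agent.U574.WN.LLB

/-!
# Project WN (helper115): the final statements
-/

set_option autoImplicit false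

open scoped Classical
open Matrix

namespace Pool.Agent.U115.WN

open Pool.Agent.U115.WM

theorem t_osym (n k : ℕ) (hk : 3 ≤ k) (hkn : k < n) :
    ∃ c' C' T₁ : ℝ, 0 < c' ∧ 2 ≤ T₁ ∧ ∀ T : ℝ, T₁ ≤ T →
      (SymPts n k (k * (k + 1) / 2) (n - k - 1) T).Finite ∧
      c' * (T * Real.log T) ≤ ((SymPts n k (k * (k + 1) / 2) (n - k - 1) T).ncard : ℝ) ∧
      ((SymPts n k (k * (k + 1) / 2) (n - k - 1) T).ncard : ℝ) ≤ C' * (T * Real.log T) :=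
  osym Pool.Agent.U580.WM.t_RED Pool.Agent.U333.WM.t_COV Pool.Agent.U439.WN.t_ABS2
    Pool.Agent.U95.WM.t_ZB Pool.Agent.U618.WM.t_EXB Pool.Agent.U255.WM.DEC.t_DEC
    Pool.Agent.U574.WN.t_LLB Pool.Agent.U618.WN.t_LUB Pool.Agent.U44.WN.t_LPT
    Pool.Agent.U427.WN.t_LFM Pool.Agent.U591.WN.QPR.t_QPR Pool.Agent.U660.WN.t_BQB
    Pool.Agent.U329.WN.t_LOWA Pool.Agent.U461.WM.t_CMS Pool.Agent.U480.WN.t_CMS2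
    Pool.Agent.U165.WN.QDS.t_QDS n k hk hkn

theorem t_oalt (n k : ℕ) (hk : 4 ≤ k) (hev : Even k) (hkn : k < n) :
    ∃ c' C' T₁ : ℝ, 0 < c' ∧ 2 ≤ T₁ ∧ ∀ T : ℝ, T₁ ≤ T →
      (AltPts n k (k * (k - 1) / 2) (n - k + 1) T).Finite ∧
      c' * (T * Real.log T) ≤ ((AltPts n k (k * (k - 1) / 2) (n - k + 1) T).ncard : ℝ) ∧
      ((AltPts n k (k * (k - 1) / 2) (n - k + 1) T).ncard : ℝ) ≤ C' * (T * Real.log T) :=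
  oalt Pool.Agent.U580.WM.t_RED Pool.Agent.U333.WM.t_COV Pool.Agent.U439.WN.t_ABS2
    Pool.Agent.U95.WM.t_ZB Pool.Agent.U618.WM.t_EXB Pool.Agent.U255.WM.DEC.t_DEC
    Pool.Agent.U574.WN.t_LLB Pool.Agent.U618.WN.t_LUB Pool.Agent.U44.WN.t_LPT
    Pool.Agent.U427.WN.t_LFM Pool.Agent.U591.WN.QPR.t_QPR Pool.Agent.U660.WN.t_BQB
    Pool.Agent.U329.WN.t_LOWA Pool.Agent.U461.WM.t_CMS Pool.Agent.U981.WN.t_CMA2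
    Pool.Agent.U438.WN.t_QDA n k hk hev hkn

theorem t_oqua (n k : ℕ) (hk : 3 ≤ k) (hkn : k < n) :
    ∃ c' C' T₁ : ℝ, 0 < c' ∧ 2 ≤ T₁ ∧ ∀ T : ℝ, T₁ ≤ T →
    {p : QPt n k | ∃ (B : Matrix (Fin n) (Fin k) ℤ) (h : ℝ), Inj B ∧ lat B = p.Λ ∧ 0 < h ∧
      (∀ v ∈ p.Λ, |(p.f v : ℝ)| ≤ h * ∑ l, (v l : ℝ) ^ 2) ∧
      h ^ ((k : ℝ) * (k + 1) / 2) * cov B ^ ((n : ℝ) + k + 1) ≤ T}.Finite ∧
    c' * (T * Real.log T) ≤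
    ({p : QPt n k | ∃ (B : Matrix (Fin n) (Fin k) ℤ) (h : ℝ), Inj B ∧ lat B = p.Λ ∧ 0 < h ∧
      (∀ v ∈ p.Λ, |(p.f v : ℝ)| ≤ h * ∑ l, (v l : ℝ) ^ 2) ∧
      h ^ ((k : ℝ) * (k + 1) / 2) * cov B ^ ((n : ℝ) + k + 1) ≤ T}.ncard : ℝ) ∧
    ({p : QPt n k | ∃ (B : Matrix (Fin n) (Fin k) ℤ) (h : ℝ), Inj B ∧ lat B = p.Λ ∧ 0 < h ∧
      (∀ v ∈ p.Λ, |(p.f v : ℝ)| ≤ h * ∑ l, (v l : ℝ) ^ 2) ∧
      h ^ ((k : ℝ) * (k + 1) / 2) * cov B ^ ((n : ℝ) + k + 1) ≤ T}.ncard : ℝ) ≤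
      C' * (T * Real.log T) :=
  oqua Pool.Agent.U580.WM.t_RED Pool.Agent.U333.WM.t_COV Pool.Agent.U439.WN.t_ABS2
    Pool.Agent.U95.WM.t_ZB Pool.Agent.U784.WM.DCQ.t_DCQ
    Pool.Agent.U574.WN.t_LLB Pool.Agent.U618.WN.t_LUB Pool.Agent.U44.WN.t_LPT
    Pool.Agent.U427.WN.t_LFM Pool.Agent.U591.WN.QPR.t_QPR
    Pool.Agent.U329.WN.t_LOWA Pool.Agent.U643.WM.t_CMQ Pool.Agent.U480.WN.t_CMS2
    Pool.Agent.U559.WN.CMQ2.t_CMQ2 Pool.Agent.U399.WN.t_QDQ Pool.Agent.U803.WN.t_FAMQ n k hk hkn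

end Pool.Agent.U115.WN
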