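import Pool.Agent.U115.WN.Asm

/-!
# Project WN (helper115): symmetric and alternating matrices
-/

set_option autoImplicit false

open scoped Classical
open Matrix

namespace Pool.Agent.U115.WN

open Pool.Agent.U115.WM

theorem osym (hR : S_RED) (hV : S_COV) (hA : S_ABS2) (hZ : S_ZB) (hE : S_EXB) (hD : S_DEC)
    (hLL : S_LLB) (hLU : S_LUB) (hLP : S_LPT) (hLF : S_LFM) (hQ : S_QPR) (hB : S_BQB)
    (hW : S_LOWA) (hC : S_CMS) (hC2 : S_CMS2) (hQD : S_QDS) (n k : ℕ) (hk : 3 ≤ k) (hkn : k < n) :
    ∃ c' C' T₁ : ℝ, 0 < c' ∧ 2 ≤ T₁ ∧ ∀ T : ℝ, T₁ ≤ T →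
      (SymPts n k (k * (k + 1) / 2) (n - k - 1) T).Finite ∧
      c' * (T * Real.log T) ≤ ((SymPts n k (k * (k + 1) / 2) (n - k - 1) T).ncard : ℝ) ∧
      ((SymPts n k (k * (k + 1) / 2) (n - k - 1) T).ncard : ℝ) ≤ C' * (T * Real.log T) := by
  have hcard := (card_le k).1
  have hkr : (3 : ℝ) ≤ k := by exact_mod_cast hk
  have h2 : 2 ≤ Fintype.card {p : Fin k × Fin k // p.1 ≤ p.2} := by
    have : (2 : ℝ) ≤ (Fintype.card {p : Fin k × Fin k // p.1 ≤ p.2} : ℝ) := by
      rw [hcard]; nlinarith
    exact_mod_cast this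
  have := omat hR hV hA hZ hE hD hLL hLU hLP hLF hQ hB hW n k hkn
    {p : Fin k × Fin k // p.1 ≤ p.2} (fun α => α.1) h2 (((k : ℝ) + 1) / 2) (by positivity)
    (by omega) (fun {_} A => Aᵀ = A) (fun _ A h => Or.inl h)
    (fun B Q h => by
      simp only [Matrix.transpose_mul, Matrix.transpose_transpose, h, Matrix.mul_assoc])
    (fun Q Q' A A' hA1 hA2 hq hq' h => by
      ext i j
      have s1 := hq.1 hA1
      have s2 := hq'.1 hA2
      rcases le_total i j with hij | hij
      · exact h ⟨(i, j), hij⟩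
      · have := h ⟨(j, i), hij⟩
        rw [← s1, ← s2]
        exact this)
    symM
    (fun c => by
      ext i j
      simp only [symM, Matrix.transpose_apply, Matrix.of_apply]
      congr 1
      exact Subtype.ext (by simp only [min_comm, max_comm]))
    (fun c α => by
      simp only [symM, Matrix.of_apply]
      congr 1
      exact Subtype.ext (by simp only [min_eq_left α.2, max_eq_right α.2]))
    (fun c d => rfl)
    (fun c q h i j => h _)
    (hQD k (by omega))
    (fun e M he hM hN => ⟨hC2 k e M hk he hM hN, (hC k e M he hM hN).2⟩)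
    (n - k - 1) (by rw [hcard]; ring) (by rw [hcard]; ring)
  rw [hcard] at this
  exact this

theorem oalt (hR : S_RED) (hV : S_COV) (hA : S_ABS2) (hZ : S_ZB) (hE : S_EXB) (hD : S_DEC)
    (hLL : S_LLB) (hLU : S_LUB) (hLP : S_LPT) (hLF : S_LFM) (hQ : S_QPR) (hB : S_BQB)
    (hW : S_LOWA) (hC : S_CMS) (hC2 : S_CMA2) (hQD : S_QDA) (n k : ℕ) (hk : 4 ≤ k)
    (hev : Even k) (hkn : k < n) :
    ∃ c' C' T₁ : ℝ, 0 < c' ∧ 2 ≤ T₁ ∧ ∀ T : ℝ, T₁ ≤ T →
      (AltPts n k (k * (k - 1) / 2) (n - k + 1) T).Finite ∧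
      c' * (T * Real.log T) ≤ ((AltPts n k (k * (k - 1) / 2) (n - k + 1) T).ncard : ℝ) ∧
      ((AltPts n k (k * (k - 1) / 2) (n - k + 1) T).ncard : ℝ) ≤ C' * (T * Real.log T) := by
  have hcard := (card_le k).2
  have hkr : (4 : ℝ) ≤ k := by exact_mod_cast hk
  have h2 : 2 ≤ Fintype.card {p : Fin k × Fin k // p.1 < p.2} := by
    have : (2 : ℝ) ≤ (Fintype.card {p : Fin k × Fin k // p.1 < p.2} : ℝ) := by
      rw [hcard]; nlinarith
    exact_mod_cast this
  have := omat hR hV hA hZ hE hD hLL hLU hLP hLF hQ hB hW n k hkn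
    {p : Fin k × Fin k // p.1 < p.2} (fun α => α.1) h2 (((k : ℝ) - 1) / 2) (by linarith)
    (by omega) (fun {_} A => Aᵀ = -A) (fun _ A h => Or.inr h)
    (fun B Q h => by
      simp only [Matrix.transpose_mul, Matrix.transpose_transpose, h, Matrix.mul_assoc,
        Matrix.neg_mul, Matrix.mul_neg])
    (fun Q Q' A A' hA1 hA2 hq hq' h => by
      ext i j
      have s1 := hq.2 hA1
      have s2 := hq'.2 hA2
      have t1 : ∀ i j, Q j i = - Q i j := fun i j => by
        have := congrFun (congrFun s1 i) j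
        simpa using this
      have t2 : ∀ i j, Q' j i = - Q' i j := fun i j => by
        have := congrFun (congrFun s2 i) j
        simpa using this
      rcases lt_trichotomy i j with hij | hij | hij
      · exact h ⟨(i, j), hij⟩
      · subst hij
        have e1 := t1 i i
        have e2 := t2 i i
        omega
      · have := h ⟨(j, i), hij⟩
        rw [t1 j i, t2 j i]
        exact congrArg _ this)
    altM
    (fun c => by
      ext i j
      simp only [altM, Matrix.transpose_apply, Matrix.of_apply, Matrix.neg_apply]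
      rcases lt_trichotomy i j with hij | hij | hij
      · rw [dif_neg hij.not_gt, dif_pos hij, dif_pos hij]
      · subst hij
        simp
      · rw [dif_pos hij, dif_neg hij.not_gt, dif_pos hij]
        simp)
    (fun c α => by
      simp only [altM, Matrix.of_apply]
      rw [dif_pos α.2])
    (fun c d => by
      ext i j
      simp only [altM, Matrix.of_apply, Matrix.smul_apply, Pi.smul_apply, smul_eq_mul]
      split_ifs <;> simp)
    (fun c q h i j => by
      simp only [altM, Matrix.of_apply]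
      split_ifs
      · exact h _
      · rw [abs_neg]; exact h _
      · simp)
    (hQD k (by omega) hev)
    (fun e M he hM hN => ⟨hC2 k e M (by omega) he hM hN, (hC k e M he hM hN).2⟩)
    (n - k + 1) (by rw [hcard]; ring) (by rw [hcard]; ring)
  rw [hcard] at this
  exact this

end Pool.Agent.U115.WN
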